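import Pool.Agent.Q99.AS.Pow

/-!
# The alternating sums of Alperin's weight conjecture are multiplicative; a one-sided inequality suffices

Let `p` be a prime and `red` a homomorphism from the ring of algebraic integers to a field of
characteristic `p`; its kernel is a maximal ideal that contains `p`.  The `p`-blocks of the finite group
`G` are the sets of irreducible characters with the same central character modulo this ideal.
For a subgroup `H` and `ϑ ∈ Irr(H)`, `bl(ϑ)^G = bl(χ)` means that, modulo the ideal, the central
character of `ϑ` has at the sum of the elements of `H` in a conjugacy class of `G` the same value as the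
central character of `χ` at the sum of this class (`Pool.Agent.Q99.AS.Induces`).

`altSum p O f` (`Pool.Agent.Q99.AS.Chain`) is the alternating sum `∑_d (-1)^|d| f(G_d)` over
representatives of the conjugacy classes of chains `d = (O = D_0 < D_1 < ⋯ < D_n)` of `p`-subgroups.

Outline of the proof.  `|G|` times the alternating sum is the sum over all chains of
`(-1)^|d| |G_d| f(G_d)`, and a function of subgroups is a sum of indicator functions of the sets
`{H : H ≥ K}`.  So the sums are determined by the signed numbers of the chains of the posets of the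
`p`-subgroups which contain `O` and are normalised by `K`.  For a subgroup `K` of `G × G'` this poset is
connected with the product of the two corresponding posets for the projections of `K` by a Galois
connection, and these numbers are products by P. Hall's theorem.  On the side of the characters the
blocks of `G × G'` are the products of blocks.  The rest is the comparison of `G` and its powers.
-/

set_option autoImplicit false

namespace Pool.Agent.Results.MP_6a3f1a_al.OneSidedInequality

open Pool.Agent.Q99.AS Pool.Agent.Helper884.IC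

variable {F : Type} [Field F]

/-- `k(B_d)` for `G_d = H` and the block `B` of `χ`: the number of the `ϑ ∈ Irr(H)` with
`bl(ϑ)^G = B`. -/
noncomputable def k (red : integralClosure ℤ ℂ →+* F) {G : Type} [Group G] (χ : G → ℂ)
    (H : Subgroup G) : ℤ :=
  Nat.card {ϑ : H → ℂ // IsIrrChar ϑ ∧ Induces red χ ϑ}

/-- The alternating sum for the block of `χ`, over the chains of `p`-subgroups which start at `O`. -/
noncomputable def sum (p : ℕ) (red : integralClosure ℤ ℂ →+* F) {G : Type} [Group G]
    (O : Subgroup G) (χ : G → ℂ) : ℤ := altSum p O (k red χ)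

/-- The hypotheses of the conjecture: `O = O_p(G)` is central, and the block of `χ ∈ Irr(G)` has defect
groups larger than `O`, as shown by `χ` itself: `χ(1)_p |O| < |G|_p`.  (Each block whose defect groups
are larger than `O_p(G)` contains such a character.) -/
def Datum (p : ℕ) {G : Type} [Group G] (O : Subgroup G) (χ : G → ℂ) : Prop :=
  IsCore p O ∧ O ≤ Subgroup.center G ∧ IsIrrChar χ ∧ Big p O χ

/-- `Q` holds for the orders and the alternating sums of all blocks as in the conjecture of the groups
in the class `X`. -/
def All (p : ℕ) (red : integralClosure ℤ ℂ →+* F) (X : ∀ (G : Type) [Group G] [Finite G], Prop)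
    (Q : ℕ → ℤ → Prop) : Prop :=
  ∀ (G : Type) [Group G] [Finite G] (O : Subgroup G) (χ : G → ℂ), X G → Datum p O χ →
    Q (Nat.card G) (sum p red O χ)

theorem k_eq (red : integralClosure ℤ ℂ →+* F) {G : Type} [Group G] (χ : G → ℂ) :
    k red χ = num red χ (fun _ _ => True) := by
  funext H
  unfold k num
  congr 1
  exact Nat.card_congr (Equiv.subtypeEquivRight fun ϑ => by simp)

theorem sum_prod {p : ℕ} [Fact p.Prime] (red : integralClosure ℤ ℂ →+* F) {G G' : Type} [Group G]
    [Group G'] [Finite G] [Finite G'] {O : Subgroup G} {O' : Subgroup G'} {χ : G → ℂ} {χ' : G' → ℂ}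
    (hO : IsPGroup p O) (hO' : IsPGroup p O') (n : O.Normal) (n' : O'.Normal) (hχ : IsIrrChar χ)
    (hχ' : IsIrrChar χ') :
    sum p red (O.prod O') (ten χ χ') = sum p red O χ * sum p red O' χ' := by
  unfold sum
  rw [k_eq, k_eq, k_eq, altSum_prod hO hO' n n' (Finset.univ : Finset Unit) _
    (fun _ => num red χ (fun _ _ => True)) (fun _ => num red χ' (fun _ _ => True))
    (num_conj red _ fun _ _ _ => Iff.rfl) (fun _ => num_conj red _ fun _ _ _ => Iff.rfl)
    (fun _ => num_conj red _ fun _ _ _ => Iff.rfl)]
  · simp
  · intro H K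
    exact num_prod red hχ hχ' Finset.univ _ (fun _ _ _ => True) (fun _ _ _ => True) H K
      (fun θ ψ _ _ => by simp) (fun θ ψ i _ j _ _ _ _ _ => rfl)

theorem Datum.sq {p : ℕ} [Fact p.Prime] {G : Type} [Group G] [Finite G] {O : Subgroup G}
    {χ : G → ℂ} (h : Datum p O χ) : Datum p (O.prod O) (ten χ χ) := by
  obtain ⟨h1, h2, h3, h4⟩ := h
  have := Fintype.ofFinite G
  exact ⟨h1.prod h1, center_prod h2 h2, ten_irr h3 h3, h4.prod h3 h3 h4⟩

/-- Let `p` be a prime and `red` the reduction of the algebraic integers modulo a maximal ideal that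
contains `p`.
(1) For finite groups `G`, `G'` with normal `p`-subgroups `O`, `O'` the alternating sum of the block
`B ⊗ B'` of `G × G'` over the chains starting at `O × O'` is the product of the alternating sums of `B`
and `B'`.
(2) Let `X` be a class of finite groups closed under direct squares, for instance the class of all
finite groups.  The conjecture (all sums are `0`) holds for the groups in `X` if and only if all the
sums are `≤ 0`.
(3) All the sums are `0`, `1` or `-1` if and only if for each `ε > 0` there is `C` such that they are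
`≤ C |G|^ε`. -/
theorem result (p : ℕ) [Fact p.Prime] (F : Type) [Field F] [CharP F p]
    (red : integralClosure ℤ ℂ →+* F) :
    (∀ (G G' : Type) [Group G] [Group G'] [Finite G] [Finite G'] (O : Subgroup G)
      (O' : Subgroup G') (χ : G → ℂ) (χ' : G' → ℂ), IsPGroup p O → IsPGroup p O' → O.Normal →
      O'.Normal → IsIrrChar χ → IsIrrChar χ' →
        sum p red (O.prod O') (ten χ χ') = sum p red O χ * sum p red O' χ') ∧
    ∀ X : ∀ (G : Type) [Group G] [Finite G], Prop,
      (∀ (G : Type) [Group G] [Finite G], X G → X (G × G)) →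
        (All p red X (fun _ s => s = 0) ↔ All p red X (fun _ s => s ≤ 0)) ∧
        (All p red X (fun _ s => |s| ≤ 1) ↔
          ∀ ε : ℝ, 0 < ε → ∃ C : ℝ, All p red X (fun n s => (s : ℝ) ≤ C * (n : ℝ) ^ ε)) := by
  refine ⟨fun G G' _ _ _ _ O O' χ χ' h1 h2 h3 h4 h5 h6 => sum_prod red h1 h2 h3 h4 h5 h6,
    fun X hX => ⟨⟨fun h G _ _ O χ hG hd => (h G O χ hG hd).le, fun h G _ _ O χ hG hd => ?_⟩,
      fun h ε hε => ⟨1, fun G _ _ O χ hG hd => ?_⟩, fun h G _ _ O χ hG hd => ?_⟩⟩
  · have h1 := h (G × G) (O.prod O) (ten χ χ) (hX G hG) hd.sq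
    obtain ⟨a, b, c, d⟩ := hd
    rw [sum_prod red a.isPGroup a.isPGroup a.normal a.normal c c] at h1
    exact mul_self_eq_zero.1 (le_antisymm h1 (mul_self_nonneg _))
  · have h1 : |sum p red O χ| ≤ 1 := h G O χ hG hd
    have h2 : (sum p red O χ : ℝ) ≤ 1 := by exact_mod_cast (le_abs_self _).trans h1
    have h3 : (1 : ℝ) ≤ (Nat.card G : ℝ) := by exact_mod_cast Nat.card_pos (α := G)
    change (sum p red O χ : ℝ) ≤ 1 * (Nat.card G : ℝ) ^ ε
    rw [one_mul]
    exact h2.trans (Real.one_le_rpow h3 hε.le)
  · refine unit_of_subpoly (P := fun n s => ∃ (G : Type) (_ : Group G) (_ : Finite G)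
      (O : Subgroup G) (χ : G → ℂ), X G ∧ Datum p O χ ∧ n = Nat.card G ∧ s = sum p red O χ)
      ?_ ?_ ?_ _ _ ⟨G, inferInstance, inferInstance, O, χ, hG, hd, rfl, rfl⟩
    · rintro n s ⟨G, _, _, O, χ, -, -, rfl, -⟩
      exact Nat.card_pos
    · rintro n s ⟨G, _, _, O, χ, hG, hd, rfl, rfl⟩
      refine ⟨G × G, inferInstance, inferInstance, O.prod O, ten χ χ, hX G hG, hd.sq,
        (Nat.card_prod G G).symm, ?_⟩
      obtain ⟨a, b, c, d⟩ := hd
      exact (sum_prod red a.isPGroup a.isPGroup a.normal a.normal c c).symm
    · intro ε hε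
      obtain ⟨C, hC⟩ := h ε hε
      refine ⟨C, ?_⟩
      rintro n s ⟨G, _, _, O, χ, hG, hd, rfl, rfl⟩
      exact hC G O χ hG hd

end Pool.Agent.Results.MP_6a3f1a_al.OneSidedInequality
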