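import Pool.Agent.Q100.PX.Gen

set_option autoImplicit false

/-!
# The failure of Alperin's weight conjecture for extensions by `p`-groups

`failure(H)` is the difference of the two sides of the equality of Knörr and Robinson
`∑_σ (-1)^|σ| k(H_σ) = z_p(H)` (Alperin's weight conjecture, summed over the blocks, in alternating-sum
form).  For a normal subgroup `G` of `E` such that `E / G` is a `p`-group, `|E| failure(E)` is the sum
over the elementary abelian subgroups `Q` of `E` with `Q ∩ G = 1` of `μ(Q) |C_G(Q)| failure(C_G(Q))`.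

Method, for `|E : G| = p`: both sides for `E` are sums over pairs `(x, y)` of elements of `E`: of the
Euler characteristic of the poset of the `p`-subgroups of `E` normalised by `x` and `y`, if `x` and `y`
commute, and of the value of the central idempotent of the characters of defect zero at `[x, y]`.  The
subgroups of `E` which meet `G` trivially are minimal in the poset and give, by retractions, the terms of
their centralisers; the rest is the sum for the poset of `G`, which is invariant under
`(x, y) ↦ (x, y x)` and `(x, y) ↦ (y, x⁻¹)` and so takes the same value on all pairs of cosets other than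
`(G, G)`.  The characters of defect zero are treated by Clifford theory and the same symmetry.
-/

open scoped Classical
open Pool.Agent.Y63.KR (alternatingSum)

namespace Pool.Agent.Results.MP_6a3f1a_al.PExtensionFormula

/-- `χ` is the character of an irreducible complex representation of `H`. -/
def IsIrreducibleCharacter {H : Type} [Group H] (χ : H → ℂ) : Prop :=
  ∃ (V : Type) (_ : AddCommGroup V) (_ : Module ℂ V) (_ : FiniteDimensional ℂ V)
    (ρ : Representation ℂ H V), ρ.IsIrreducible ∧ χ = ρ.character

/-- `χ` has `p`-defect zero: `χ(1)_p = |H|_p`. -/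
def DefectZero (p : ℕ) {H : Type} [Group H] (χ : H → ℂ) : Prop :=
  ∃ n : ℕ, χ 1 = (n : ℂ) ∧ n.factorization p = (Nat.card H).factorization p

/-- The failure of the equality of Knörr and Robinson for `H`: `∑_σ (-1)^|σ| k(H_σ) - z_p(H)`, where
`σ` runs through the classes of chains of nontrivial `p`-subgroups of `H` (the empty chain included),
`k(H_σ)` is the class number of the stabiliser and `z_p(H)` the number of the irreducible characters
of `H` of defect zero. -/
noncomputable def failure (p : ℕ) (H : Type) [Group H] : ℤ :=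
  alternatingSum p H (fun K => (Nat.card (ConjClasses K) : ℤ)) -
    (Nat.card {χ : H → ℂ // IsIrreducibleCharacter χ ∧ DefectZero p χ} : ℤ)

/-- `C_G(Q)` -/
def C {E : Type} [Group E] (G Q : Subgroup E) : Subgroup E :=
  G ⊓ Subgroup.centralizer (Q : Set E)

/-- `Q` is an elementary abelian `p`-group. -/
def IsElementaryAbelian {E : Type} [Group E] (p : ℕ) (Q : Subgroup E) : Prop :=
  (∀ x ∈ Q, ∀ y ∈ Q, x * y = y * x) ∧ ∀ x ∈ Q, x ^ p = 1

/-- `r`, where `|Q| = p^r` -/
noncomputable def rk {E : Type} [Group E] (p : ℕ) (Q : Subgroup E) : ℕ :=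
  (Nat.card Q).factorization p

/-- `μ(Q) = (-1)^r p^(r (r - 1) / 2)`, `|Q| = p^r` -/
noncomputable def μ {E : Type} [Group E] (p : ℕ) (Q : Subgroup E) : ℤ :=
  (-1) ^ rk p Q * (p : ℤ) ^ (rk p Q * (rk p Q - 1) / 2)

/-- **Theorem.** Let `G` be a normal subgroup of the finite group `E` such that `E / G` is a `p`-group.
Then `|E| failure(E)` is the sum of the `μ(Q) |C_G(Q)| failure(C_G(Q))` over the elementary abelian
`p`-subgroups `Q` of `E` with `Q ∩ G = 1` (`Q = 1` included). -/
theorem result (p : ℕ) (hp : p.Prime) (E : Type) [Group E] [Finite E] (G : Subgroup E) [G.Normal]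
    (hE : IsPGroup p (E ⧸ G)) :
    (Nat.card E : ℤ) * failure p E =
      ∑ᶠ Q : {Q : Subgroup E // IsElementaryAbelian p Q ∧ Q ⊓ G = ⊥},
        μ p (Q : Subgroup E) * ((Nat.card (C G Q) : ℤ) * failure p (C G Q)) := by
  have : Fact p.Prime := ⟨hp⟩
  let _ : Fintype E := Fintype.ofFinite E
  let _ : Fintype (Subgroup E) := Fintype.ofFinite _
  have h1 := Pool.Agent.Q100.PX.general (p := p) (E := E) (Nat.card (⊤ : Subgroup E)) ⊤ G le_rfl le_top
    (fun m _ g hg => Subgroup.Normal.conj_mem inferInstance g hg m) (fun m _ => by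
      obtain ⟨k, hk⟩ := hE (m : E ⧸ G)
      refine ⟨k, ?_⟩
      rw [← QuotientGroup.mk_pow, QuotientGroup.eq_one_iff] at hk
      exact hk)
  rw [Pool.Agent.Q100.PX.FF_congr (Subgroup.topEquiv : (⊤ : Subgroup E) ≃* E)] at h1
  rw [finsum_eq_sum_of_fintype]
  refine Eq.trans h1 ?_
  rw [Finset.sum_subtype (Pool.Agent.Q100.PX.QQ p G ⊤)
    (p := fun Q : Subgroup E => IsElementaryAbelian p Q ∧ Q ⊓ G = ⊥)
    (fun Q => by
      rw [Pool.Agent.Q100.PX.mem_QQ]
      exact ⟨fun h => h.2, fun h => ⟨le_top, h⟩⟩)]
  rfl

end Pool.Agent.Results.MP_6a3f1a_al.PExtensionFormula
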