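import Pool.Agent.Q149.DB.Tot

/-!
# Alperin's weight conjecture in alternating-sum form, odd primes: parities of real blocks decide

Let `p` be odd, let `G` be a finite group and `B` a block of `G`. `S(B)` is the alternating sum
`∑_σ (-1)^|σ| k(B_σ)` over the chains of nontrivial `p`-subgroups, and `R(B)` is the sum (without
signs) of the numbers of the real-valued characters counted by `k(B_σ)`. If `R(B)` is even for all
real blocks `B` of positive defect of all groups without nontrivial normal `p`-subgroups, then
`S(B) = 0` for all blocks `B` of positive defect of these groups, real or not.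

Proof. For `z` in the centre of `F[G]` let `S(z)` be the alternating sum of the numbers of the
characters of the stabilisers `G_σ` whose blocks do not vanish at `z`. Since the blocks of chain
stabilisers induce to `G` (Brauer induction along iterated normalisers of `p`-subgroups), `S(z)` is
the sum of `S(B)` over the blocks with `B(z) ≠ 0`. For the element `z ⊗ z` of the centre of
`F[G ≀ C₂]` the formula for alternating sums of arbitrary functions of the stabilisers gives
`2 S(z ⊗ z) = S(z)² + 3 S(z)`. If `z` is invariant under `g ↦ g⁻¹`, then `S(z)` is congruent modulo 2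
to the number of the real characters, which lie in real blocks. So if these numbers are even for all
iterated wreath products, then `S(z)` is divisible by all powers of 2. Finally for each block `B` of
positive defect there is such a `z` that vanishes on the blocks of defect zero, with `S(z) = S(B)` or
`S(z) = 2 S(B)`.
-/

set_option autoImplicit false

namespace Pool.Agent.Results.MP_6a3f1a_al.RealBlocksDecide

open Pool.Agent.Y63.NV (IsBlock IsClassFun centralValue)
open Pool.Agent.Y63.NV.B48B (rs)
open Pool.Agent.Y63.AWC (IsIrreducibleCharacter)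
open Pool.Agent.Y63.KR (chainStabilizer)
open Pool.Agent.Q90.WR (Wr WrN instGroupWrN)
open Pool.Agent.Q99.AS (altSum IsCh chSetoid)
open Pool.Agent.Q149.DB (RealBlock PosDef nb PT rl tot sgn SB TB bl)

/-- `ϑ` is an irreducible character of the subgroup `H` of `G` with `bl(ϑ)^G = B`. -/
structure InBlock {F : Type} [Field F] (red : integralClosure ℤ ℂ →+* F) {G : Type}
    [Group G] (B : (G → F) → F) (H : Subgroup G) (ϑ : H → ℂ) : Prop where
  irr : IsIrreducibleCharacter ϑ
  block : ∀ f : G → F, IsClassFun f → centralValue red ϑ (fun x => f x) = B f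

/-- `k(B_σ)` for `G_σ = H` -/
noncomputable def numBlock {F : Type} [Field F] (red : integralClosure ℤ ℂ →+* F)
    {G : Type} [Group G] (B : (G → F) → F) (H : Subgroup G) : ℕ :=
  Nat.card {ϑ : H → ℂ // InBlock red B H ϑ}

/-- the number of the real-valued characters among those counted by `k(B_σ)`, `G_σ = H` -/
noncomputable def numRealBlock {F : Type} [Field F] (red : integralClosure ℤ ℂ →+* F)
    {G : Type} [Group G] (B : (G → F) → F) (H : Subgroup G) : ℕ :=
  Nat.card {ϑ : H → ℂ // InBlock red B H ϑ ∧ ∀ g, (ϑ g).im = 0}

/-- `S(B)`: the alternating sum `∑_σ (-1)^|σ| k(B_σ)` over representatives of the classes of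
chains `1 = D_0 < D_1 < ⋯ < D_n` of `p`-subgroups. -/
noncomputable def blockSum (p : ℕ) {F : Type} [Field F] (red : integralClosure ℤ ℂ →+* F)
    {G : Type} [Group G] (B : (G → F) → F) : ℤ :=
  altSum p ⊥ (fun H : Subgroup G => (numBlock red B H : ℤ))

/-- `R(B)`: the sum of the numbers of real-valued characters over the same chains, without signs. -/
noncomputable def realSum (p : ℕ) {F : Type} [Field F] (red : integralClosure ℤ ℂ →+* F)
    {G : Type} [Group G] (B : (G → F) → F) : ℕ :=
  ∑ᶠ c : Quotient (chSetoid p (⊥ : Subgroup G)), numRealBlock red B (chainStabilizer c.out.1)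

/-- `S(B) = 0` for all blocks `B` of `G` of positive defect. -/
def Alperin (p : ℕ) {F : Type} [Field F] (red : integralClosure ℤ ℂ →+* F) (G : Type) [Group G] :
    Prop :=
  ∀ B : (G → F) → F, IsBlock B → PosDef red p B → blockSum p red B = 0

/-- `R(B)` is even for all real blocks `B` of `G` of positive defect. -/
def RealEven (p : ℕ) {F : Type} [Field F] (red : integralClosure ℤ ℂ →+* F) (G : Type)
    [Group G] : Prop :=
  ∀ B : (G → F) → F, IsBlock B → PosDef red p B → RealBlock B → Even (realSum p red B)

/-- `G` has no nontrivial normal `p`-subgroup. -/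
def TrivialCore (p : ℕ) (G : Type) [Group G] : Prop :=
  ∀ P : Subgroup G, P.Normal → IsPGroup p P → P = ⊥

section bridge

variable {F : Type} [Field F] (red : integralClosure ℤ ℂ →+* F) {G : Type} [Group G]

theorem bl_iff {B : (G → F) → F} {H : Subgroup G} {ϑ : H → ℂ} : bl red ϑ = rs B ↔
    ∀ f : G → F, IsClassFun f → centralValue red ϑ (fun x => f x) = B f :=
  ⟨fun h f hf => congrFun h ⟨f, hf⟩, fun h => funext fun f => h f.1 f.2⟩

theorem num_eq (B : (G → F) → F) (H : Subgroup G) :
    numBlock red B H = nb red PT (rs B) H :=
  Nat.card_congr (Equiv.subtypeEquivRight fun ϑ =>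
    ⟨fun h => ⟨h.irr, trivial, (bl_iff red).2 h.block⟩,
      fun h => ⟨h.1, (bl_iff red).1 h.2.2⟩⟩)

theorem real_eq (B : (G → F) → F) (H : Subgroup G) :
    numRealBlock red B H = nb red (rl PT) (rs B) H :=
  Nat.card_congr (Equiv.subtypeEquivRight fun ϑ =>
    ⟨fun h => ⟨h.1.irr, ⟨trivial, h.2⟩, (bl_iff red).2 h.1.block⟩,
      fun h => ⟨⟨h.1, (bl_iff red).1 h.2.2⟩, h.2.1.2⟩⟩)

theorem sum_eq (p : ℕ) (B : (G → F) → F) : blockSum p red B = SB red p B := by
  unfold blockSum SB
  have h : numBlock red B = nb red PT (rs B) := funext fun H => num_eq red B H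
  rw [h]
  rfl

theorem realSum_eq (p : ℕ) [Finite G] (B : (G → F) → F) :
    (realSum p red B : ℤ) = TB red p B := by
  have : Fintype (Quotient (chSetoid p (⊥ : Subgroup G))) := Fintype.ofFinite _
  unfold realSum TB tot
  rw [finsum_eq_sum_of_fintype, finsum_eq_sum_of_fintype, Nat.cast_sum]
  exact Finset.sum_congr rfl fun c _ => by rw [real_eq, one_mul]

theorem even_iff (p : ℕ) [Finite G] (B : (G → F) → F) :
    Even (realSum p red B) ↔ (2 : ℤ) ∣ TB red p B := by
  rw [← realSum_eq red p B, even_iff_two_dvd]
  exact_mod_cast Iff.rfl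

end bridge

/-- **Alperin's weight conjecture in alternating-sum form for odd primes: the parities of the real
blocks decide.** Let `p` be an odd prime.
(1) `S(B) = 0` for all blocks `B` of positive defect of all finite groups without nontrivial normal
`p`-subgroups if and only if `R(B)` is even for all real blocks `B` of positive defect of these
groups.
(2) For every class `C` of finite groups closed under `G ↦ G ≀ C₂`: `S(B) = 0` for all blocks `B` of
positive defect of the groups in `C` if and only if `R(B)` is even for all real blocks `B` of positive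
defect of the groups in `C`.
(3) For one finite group `G`: `S(B) = 0` for all blocks `B` of positive defect of `G` if `R(B)` is even
for all real blocks `B` of positive defect of the iterated wreath products `WrN j G` of `G` with
`C₂`, `2 ^ j ≤ c |G|` with the number `c` of chains of nontrivial `p`-subgroups of `G`. -/
theorem result (p : ℕ) [Fact p.Prime] (hp2 : p ≠ 2) (F : Type) [Field F] [IsAlgClosed F]
    [CharP F p] (red : integralClosure ℤ ℂ →+* F) :
    ((∀ (G : Type) [Group G] [Finite G], TrivialCore p G → Alperin p red G) ↔
      ∀ (G : Type) [Group G] [Finite G], TrivialCore p G → RealEven p red G) ∧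
    (∀ C : (G : Type) → Group G → Prop,
      (∀ (G : Type) [i : Group G] [Finite G], C G i → C (Wr G) inferInstance) →
      ((∀ (G : Type) [i : Group G] [Finite G], C G i → Alperin p red G) ↔
        ∀ (G : Type) [i : Group G] [Finite G], C G i → RealEven p red G)) ∧
    (∀ (G : Type) [Group G] [Finite G],
      (∀ j : ℕ, 2 ^ j ≤ Nat.card {σ : Set (Subgroup G) // IsCh p ⊥ σ} * Nat.card G →
        RealEven p red (WrN j G)) → Alperin p red G) := by
  have h1 : ∀ (G : Type) [Group G] [Finite G],
      (∀ j : ℕ, 2 ^ j ≤ Nat.card {σ : Set (Subgroup G) // IsCh p ⊥ σ} * Nat.card G →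
        RealEven p red (WrN j G)) → Alperin p red G := by
    intro G _ _ h B hB hB'
    rw [sum_eq]
    exact Pool.Agent.Q149.DB.SB_zero red hp2 G (fun j hj B hB hr hB' =>
      (even_iff red p B).1 (h j hj B hB hB' hr)) B hB hB'
  have h2 : ∀ C : (G : Type) → Group G → Prop,
      (∀ (G : Type) [i : Group G] [Finite G], C G i → C (Wr G) inferInstance) →
      ((∀ (G : Type) [i : Group G] [Finite G], C G i → Alperin p red G) ↔
        ∀ (G : Type) [i : Group G] [Finite G], C G i → RealEven p red G) := by
    intro C hC
    constructor
    · intro h G _ _ hG B hB hB' hr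
      have h3 := Pool.Agent.Q149.DB.SB_mod red hp2 G B hB hr
      have h4 := h G hG B hB hB'
      rw [sum_eq] at h4
      rw [h4] at h3
      rw [even_iff]
      exact (Int.modEq_zero_iff_dvd).1 h3.symm
    · intro h G _ _ hG
      exact h1 G fun j _ => h (WrN j G) (Pool.Agent.Q149.WB.closed_WrN C hC j G hG)
  refine ⟨?_, h2, h1⟩
  have h3 := h2 (fun G i => Finite G ∧ @TrivialCore p G i) (fun G _ _ hG =>
    ⟨inferInstance, Pool.Agent.Q90.WR.Op_wr hp2 hG.2⟩)
  constructor
  · intro h G _ _ hG
    exact h3.1 (fun G _ _ hG => h G hG.2) G ⟨inferInstance, hG⟩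
  · intro h G _ _ hG
    exact h3.2 (fun G _ _ hG => h G hG.2) G ⟨inferInstance, hG⟩

end Pool.Agent.Results.MP_6a3f1a_al.RealBlocksDecide
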